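import Pool.Agent.Helper1.SP.Main

set_option autoImplicit false

/-! # Deligne's periods of the Schur functors of a motive with two Hodge types

Let `M` be a pure motive over `ℚ` with coefficients in a number field `E` whose only Hodge types are `(p, q)`
and `(q, p)`, `p < q` (for instance `H¹` of an abelian variety, or the motive of a modular form, or its
restriction of scalars), let `k` be odd, `e = ∑ c(σ) σ` an idempotent of `E[S_k]` and `T = e (M ^ ⊗ k)`; every
Schur functor `S_λ M`, `|λ| = k`, is of this form. Let `a = dim M^+` (so `M` has rank `2 a`), and let `h_j` be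
the Hodge number of `T` of type `((k - j) p + j q, (k - j) q + j p)`. Then, modulo `Eˣ`,
`c^±(T) = c^±(M) ^ x * c^∓(M) ^ y * δ(M) ^ z`, where
`a x = ∑ (k - 2 j) h_j` over the even `j < k / 2`, `a y = ∑ (k - 2 j) h_j` over the odd `j < k / 2`, and
`a z = ∑ j h_j` over the `j < k / 2`. For `a = 1` and `T = Sym^k M` this is Deligne's computation.

Proof: write `X` for the matrix of `I_∞` in `E`-bases adapted to `M_B = M^s ⊕ M^{-s}` and to
`M_DR = M_DR / F^± ⊕ F^±`. The period of `T` is the determinant of `X ^ ⊗ k` from the part of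
`e ((E ^ 2a) ^ ⊗ k)` with an even number of factors in `M^{-s}` to the part with less than `k / 2` factors in
`F^±`. Now `X = u D(1, h) X_0 D(A, A')` with `u` unipotent and lower triangular, `X_0` rational and
`A`, `A'` the period matrices of `M`. The unipotent factor contributes `1`, and the block diagonal matrices
contribute characters of `GL_a × GL_a`, that is powers of the determinants of the blocks; the exponents are
traces of projectors, which are computed by Hodge numbers.

The definitions (`IsSchur`, `IsSchurDR`, `TwoTypes`, `hodgeNumber`, `PeriodRelation`, `FormulaRelation`, and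
the sums `evenSum`, `oddSum`, `lowSum`, `halfSum`) are in `Pool.Agent.Helper1.SP.SDefs`, `tp` (the tensor
power of a matrix) and `sym` (the action of `∑ c(σ) σ`) in `Pool.Agent.Helper1.SP.Tp`; `PMot`,
`PMot.IsPeriod`, `PMot.NoMiddle`, `UnitPeriods`, `Formula` and `tpi` are the definitions of the library
modules `DP.CDefs` and `DP.CMain`. -/

namespace Pool.Agent.Results.MP_100fe7_nt.SchurFunctorPeriods

open TensorProduct Pool.Agent.X33.DP Pool.Agent.X33.DP.PMot Pool.Agent.Helper1.SP

/-- The periods of `M` and `T` exist and are units; `T` has no middle classes; `dim T^+` and the exponents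
`x`, `y`, `z` in terms of the Hodge numbers of `T`; the period relation
`c^s(T) ∼ c^s(M) ^ x * c^{-s}(M) ^ y * δ(M) ^ z`; and Deligne's formula for `T` in terms of the periods of
`M`. -/
theorem result (E : Type) [Field E] [NumberField E] (M T : PMot E (E ⊗[ℚ] ℂ)) (p q : ℤ)
    (hM : TwoTypes M p q) (k : ℕ) (hk : Odd k) (c : Equiv.Perm (Fin k) → E)
    (β δ : Matrix (Fin T.N) (Fin k → Fin M.N) E) (hT : IsSchur M T k c β)
    (hD : IsSchurDR M T k c β δ) (h : ℕ → ℕ)
    (hh : ∀ j, h j = hodgeNumber T (((k - j : ℕ) : ℤ) * p + (j : ℤ) * q)) :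
    T.NoMiddle ∧ UnitPeriods M ∧ UnitPeriods T ∧ T.dim 1 = halfSum k h ∧
      ∃ x y z : ℕ, M.dim 1 * x = evenSum k h ∧ M.dim 1 * y = oddSum k h ∧
        M.dim 1 * z = lowSum k h ∧ PeriodRelation M T x y z ∧
        FormulaRelation (tpi E) M T x y z := by
  obtain rfl : h = fun j => hodgeNumber T (((k - j : ℕ) : ℤ) * p + (j : ℤ) * q) := funext hh
  obtain ⟨h0, h1, x, y, z, hx, hy, hz, hP⟩ := periodRelation hM hk hT hD
  exact ⟨h0, unitPeriods hM.noMiddle, unitPeriods h0, h1, x, y, z, hx, hy, hz, hP,
    formulaRelation h0 hP (tpi E)⟩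

end Pool.Agent.Results.MP_100fe7_nt.SchurFunctorPeriods
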